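import Pool.Agent.H79.QF.Targets

/-!
# Board qfg_modules, row DRP
-/

set_option autoImplicit false

open Finset Matrix Pool.Agent.H1.Mono Pool.Agent.H79.QF

namespace Pool.Agent.H60.QF

lemma drp_unit {ι : Type} [Fintype ι] [DecidableEq ι] (U : Matrix ι ι ℂ)
    (hU : U ∈ Matrix.unitaryGroup ι ℂ) (x : ι → ℂ) :
    ∑ i, ‖(U *ᵥ x) i‖ ^ 2 = ∑ i, ‖x i‖ ^ 2 := by
  have h0 : ∀ z : ι → ℂ, ((∑ i, ‖z i‖ ^ 2 : ℝ) : ℂ) = star z ⬝ᵥ z := by
    intro z
    rw [dotProduct, Complex.ofReal_sum]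
    refine sum_congr rfl fun i _ => ?_
    rw [Pi.star_apply, Complex.star_def, Complex.conj_mul', Complex.ofReal_pow]
  have h1 : ((∑ i, ‖(U *ᵥ x) i‖ ^ 2 : ℝ) : ℂ) = ((∑ i, ‖x i‖ ^ 2 : ℝ) : ℂ) := by
    rw [h0, h0, star_mulVec, dotProduct_mulVec, vecMul_vecMul]
    have h2 : Uᴴ * U = 1 := by
      have := Matrix.mem_unitaryGroup_iff'.1 hU
      rwa [star_eq_conjTranspose] at this
    rw [h2, vecMul_one]
  exact_mod_cast h1

lemma drp_phase {s : ℕ} (Q : GQ s) (v : Fin s → Prop) (i : Q.basis) : ‖Q.phase v i‖ = 1 := by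
  classical
  unfold GQ.phase
  rw [norm_prod]
  refine prod_eq_one fun u _ => ?_
  split_ifs <;> simp

lemma drp_phase_eq {s : ℕ} (Q : GQ s) (v v0 : Fin s → Prop) (i : Q.basis)
    (h : ¬ ∃ u ∈ Q.ask i, ¬ (v u ↔ v0 u)) : Q.phase v i = Q.phase v0 i := by
  classical
  unfold GQ.phase
  refine prod_congr rfl fun u hu => ?_
  have h1 : v u ↔ v0 u := by
    by_contra h2
    exact h ⟨u, hu, h2⟩
  by_cases h3 : v u
  · rw [if_pos h3, if_pos (h1.1 h3)]
  · rw [if_neg h3, if_neg (fun h4 => h3 (h1.2 h4))]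

/-- Minkowski's inequality -/
lemma drp_mink {ι : Type} [Fintype ι] (C : ι → Prop) [DecidablePred C] (x y : ι → ℂ) :
    Real.sqrt (∑ i, if C i then ‖x i‖ ^ 2 else 0) ≤
      Real.sqrt (∑ i, if C i then ‖y i‖ ^ 2 else 0) + Real.sqrt (∑ i, ‖x i - y i‖ ^ 2) := by
  let a : EuclideanSpace ℂ ι := WithLp.toLp 2 fun i => if C i then x i else 0
  let b : EuclideanSpace ℂ ι := WithLp.toLp 2 fun i => if C i then y i else 0
  have ha : ‖a‖ = Real.sqrt (∑ i, if C i then ‖x i‖ ^ 2 else 0) := by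
    rw [EuclideanSpace.norm_eq]
    congr 1
    refine sum_congr rfl fun i _ => ?_
    change ‖if C i then x i else 0‖ ^ 2 = _
    split_ifs <;> simp
  have hb : ‖b‖ = Real.sqrt (∑ i, if C i then ‖y i‖ ^ 2 else 0) := by
    rw [EuclideanSpace.norm_eq]
    congr 1
    refine sum_congr rfl fun i _ => ?_
    change ‖if C i then y i else 0‖ ^ 2 = _
    split_ifs <;> simp
  have hab : ‖a - b‖ ≤ Real.sqrt (∑ i, ‖x i - y i‖ ^ 2) := by
    rw [EuclideanSpace.norm_eq]
    refine Real.sqrt_le_sqrt (sum_le_sum fun i _ => ?_)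
    change ‖(if C i then x i else 0) - (if C i then y i else 0)‖ ^ 2 ≤ _
    split_ifs
    · exact le_rfl
    · rw [sub_zero, norm_zero, zero_pow two_ne_zero]
      exact sq_nonneg _
  rw [← ha, ← hb]
  calc ‖a‖ = ‖b + (a - b)‖ := by rw [add_sub_cancel]
    _ ≤ ‖b‖ + ‖a - b‖ := norm_add_le _ _
    _ ≤ _ := by linarith

/-- the algorithm without its first query -/
noncomputable def drp {s : ℕ} (Q : GQ s) (v0 : Fin s → Prop) : GQ s where
  basis := Q.basis
  ask := Q.ask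
  T := Q.T
  U := fun t => Q.U (t + 1)
  unitary := fun t => Q.unitary (t + 1)
  init := fun i => Q.phase v0 i * (Q.U 0 *ᵥ Q.init) i
  norm_init := by
    have h : ∀ i, ‖Q.phase v0 i * (Q.U 0 *ᵥ Q.init) i‖ ^ 2 = ‖(Q.U 0 *ᵥ Q.init) i‖ ^ 2 := by
      intro i
      rw [norm_mul, drp_phase, one_mul]
    rw [sum_congr rfl fun i _ => h i, drp_unit _ (Q.unitary 0), Q.norm_init]
  acc := Q.acc

/-- the distance of the two algorithms does not change -/
lemma drp_dist {s : ℕ} (Q : GQ s) (v v0 : Fin s → Prop) (j : ℕ) :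
    ∑ i : Q.basis, ‖Q.state v (j + 1) i - (drp Q v0).state v j i‖ ^ 2 =
      ∑ i : Q.basis, ‖Q.phase v i * (Q.U 0 *ᵥ Q.init) i -
        Q.phase v0 i * (Q.U 0 *ᵥ Q.init) i‖ ^ 2 := by
  induction j with
  | zero =>
    have h1 : (fun i : Q.basis => Q.state v (0 + 1) i - (drp Q v0).state v 0 i) =
        Q.U 1 *ᵥ (fun i => Q.phase v i * (Q.U 0 *ᵥ Q.init) i -
          Q.phase v0 i * (Q.U 0 *ᵥ Q.init) i) := by
      have h2 : (fun i => Q.phase v i * (Q.U 0 *ᵥ Q.init) i -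
          Q.phase v0 i * (Q.U 0 *ᵥ Q.init) i) =
          (fun i => Q.phase v i * (Q.U 0 *ᵥ Q.init) i) -
            (fun i => Q.phase v0 i * (Q.U 0 *ᵥ Q.init) i) := rfl
      rw [h2, mulVec_sub]
      rfl
    have h3 := drp_unit _ (Q.unitary 1) (fun i => Q.phase v i * (Q.U 0 *ᵥ Q.init) i -
          Q.phase v0 i * (Q.U 0 *ᵥ Q.init) i)
    rw [← h1] at h3
    exact h3
  | succ j ih =>
    rw [← ih]
    have h1 : (fun i : Q.basis => Q.state v (j + 1 + 1) i - (drp Q v0).state v (j + 1) i) =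
        Q.U (j + 1 + 1) *ᵥ (fun i => Q.phase v i * Q.state v (j + 1) i -
          Q.phase v i * (drp Q v0).state v j i) := by
      have h2 : (fun i => Q.phase v i * Q.state v (j + 1) i -
          Q.phase v i * (drp Q v0).state v j i) =
          (fun i => Q.phase v i * Q.state v (j + 1) i) -
            (fun i => Q.phase v i * (drp Q v0).state v j i) := rfl
      rw [h2, mulVec_sub]
      rfl
    have h3 := drp_unit _ (Q.unitary (j + 1 + 1)) (fun i => Q.phase v i * Q.state v (j + 1) i -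
          Q.phase v i * (drp Q v0).state v j i)
    rw [← h1] at h3
    refine h3.trans (sum_congr rfl fun i _ => ?_)
    rw [← mul_sub, norm_mul, drp_phase, one_mul]

/-- DRP: the first query is replaced by the query to `v0` -/
theorem pf_DRP : T_DRP := by
  classical
  intro s Q P hP v0
  refine ⟨drp Q v0, hP, fun v j D => ?_⟩
  have h1 : Real.sqrt (∑ i : Q.basis, ‖Q.state v (j + 1) i - (drp Q v0).state v j i‖ ^ 2) ≤
      2 * Real.sqrt (Q.wt v 0 fun u => ¬ (v u ↔ v0 u)) := by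
    rw [drp_dist]
    have h2 : ∑ i : Q.basis, ‖Q.phase v i * (Q.U 0 *ᵥ Q.init) i -
        Q.phase v0 i * (Q.U 0 *ᵥ Q.init) i‖ ^ 2 ≤
        2 ^ 2 * Q.wt v 0 fun u => ¬ (v u ↔ v0 u) := by
      unfold GQ.wt
      rw [mul_sum]
      refine sum_le_sum fun i _ => ?_
      rw [← sub_mul, norm_mul]
      by_cases h : ∃ u ∈ Q.ask i, ¬ (v u ↔ v0 u)
      · rw [if_pos h, mul_pow]
        refine mul_le_mul_of_nonneg_right ?_ (sq_nonneg _)
        refine pow_le_pow_left₀ (norm_nonneg _) ?_ 2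
        refine (norm_sub_le _ _).trans ?_
        rw [drp_phase, drp_phase]
        norm_num
      · rw [if_neg h, drp_phase_eq Q v v0 i h, sub_self, norm_zero, zero_mul]
        norm_num
    calc _ ≤ Real.sqrt (2 ^ 2 * Q.wt v 0 fun u => ¬ (v u ↔ v0 u)) := Real.sqrt_le_sqrt h2
      _ = _ := by
        rw [Real.sqrt_mul (by norm_num), Real.sqrt_sq (by norm_num)]
  have h5 : Real.sqrt (Q.wt v (j + 1) D) ≤ Real.sqrt ((drp Q v0).wt v j D) +
      Real.sqrt (∑ i : Q.basis, ‖Q.state v (j + 1) i - (drp Q v0).state v j i‖ ^ 2) := by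
    unfold GQ.wt
    exact drp_mink (fun i : Q.basis => ∃ u ∈ Q.ask i, D u) (fun i => Q.state v (j + 1) i)
      (fun i => (drp Q v0).state v j i)
  linarith

end Pool.Agent.H60.QF
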