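import Pool.Agent.H79.QF.Targets

/-!
# Board qfg_modules, row E2
-/

set_option autoImplicit false

open Finset Matrix Pool.Agent.H1.Mono Pool.Agent.H79.QF

namespace Pool.Agent.H60.QF

/-- the estimate for one step -/
lemma e2_one (hHA2 : T_HA2) (R τ : ℕ) (hτ : τ < R) (α : ℕ → ℝ) (β : ℕ → ℝ) :
    2 * ∑ r ∈ range (τ + 1), α r * β τ / ((τ : ℝ) - r + 1) ≤
      71 / 50 * (∑ t ∈ range R, α t ^ 2 + ∑ t ∈ range R, β t ^ 2) := by
  have h1 : ∑ r ∈ range (τ + 1), (1 / ((τ : ℝ) - r + 1)) ^ 2 ≤ 2 := by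
    have h2 := (hHA2 (τ + 1) (by omega)).2
    rw [← sum_range_reflect] at h2
    refine le_trans (le_of_eq (sum_congr rfl fun r hr => ?_)) h2
    have h3 : r ≤ τ := by
      have := mem_range.1 hr
      omega
    have h4 : ((τ + 1 - 1 - r : ℕ) : ℝ) = (τ : ℝ) - r := by
      rw [Nat.add_sub_cancel, Nat.cast_sub h3]
    rw [h4, div_pow, one_pow]
  have h2 : (∑ r ∈ range (τ + 1), α r * (1 / ((τ : ℝ) - r + 1))) ^ 2 ≤
      (∑ r ∈ range (τ + 1), α r ^ 2) * ∑ r ∈ range (τ + 1), (1 / ((τ : ℝ) - r + 1)) ^ 2 :=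
    sum_mul_sq_le_sq_mul_sq _ _ _
  have h3 : ∑ r ∈ range (τ + 1), α r ^ 2 ≤ ∑ t ∈ range R, α t ^ 2 :=
    sum_le_sum_of_subset_of_nonneg (fun r hr => mem_range.2 (by
      have := mem_range.1 hr
      omega)) fun _ _ _ => sq_nonneg _
  have h4 : β τ ^ 2 ≤ ∑ t ∈ range R, β t ^ 2 :=
    single_le_sum (f := fun t => β t ^ 2) (fun _ _ => sq_nonneg _) (mem_range.2 hτ)
  have h5 : ∑ r ∈ range (τ + 1), α r * β τ / ((τ : ℝ) - r + 1) =
      β τ * ∑ r ∈ range (τ + 1), α r * (1 / ((τ : ℝ) - r + 1)) := by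
    rw [mul_sum]
    refine sum_congr rfl fun r _ => ?_
    rw [mul_one_div]
    ring
  set A := ∑ t ∈ range R, α t ^ 2 with hA
  set B := ∑ t ∈ range R, β t ^ 2 with hB
  set S := ∑ r ∈ range (τ + 1), α r * (1 / ((τ : ℝ) - r + 1)) with hS
  have hA0 : 0 ≤ A := sum_nonneg fun _ _ => sq_nonneg _
  have hB0 : 0 ≤ B := sum_nonneg fun _ _ => sq_nonneg _
  have h6 : S ^ 2 ≤ 2 * A := by
    calc S ^ 2 ≤ (∑ r ∈ range (τ + 1), α r ^ 2) *
          ∑ r ∈ range (τ + 1), (1 / ((τ : ℝ) - r + 1)) ^ 2 := h2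
      _ ≤ A * 2 := mul_le_mul h3 h1 (sum_nonneg fun _ _ => sq_nonneg _) hA0
      _ = 2 * A := mul_comm _ _
  rw [h5]
  have h7 : (2 * (β τ * S)) ^ 2 ≤ (71 / 50 * (A + B)) ^ 2 := by
    have h8 : β τ ^ 2 * S ^ 2 ≤ B * (2 * A) :=
      mul_le_mul h4 h6 (sq_nonneg _) hB0
    nlinarith [sq_nonneg (A - B), sq_nonneg (A + B)]
  exact (abs_le_of_sq_le_sq' h7 (by positivity)).2

open Classical in
/-- at most one step counts -/
lemma e2_sum (F : ℕ → Prop) (h : ℕ → ℝ) (R : ℕ) (C : ℝ) (hC : 0 ≤ C)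
    (hF : ∀ t < R, ∀ t' < R, t < t' → F t → ¬ F t') (hh : ∀ t < R, h t ≤ C) :
    ∑ t ∈ range R, (if F t then h t else 0) ≤ C := by
  by_cases hex : ∃ t < R, F t
  · obtain ⟨τ, hτ, hFτ⟩ := hex
    rw [sum_eq_single τ]
    · rw [if_pos hFτ]
      exact hh τ hτ
    · intro t ht htτ
      rw [if_neg]
      intro hFt
      rcases lt_or_gt_of_ne htτ with h1 | h1
      · exact hF t (mem_range.1 ht) τ hτ h1 hFt hFτ
      · exact hF τ hτ t (mem_range.1 ht) h1 hFτ hFt
    · intro h1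
      exact absurd (mem_range.2 hτ) h1
  · rw [sum_eq_zero]
    · exact hC
    · intro t ht
      rw [if_neg]
      intro h1
      exact hex ⟨t, mem_range.1 ht, h1⟩

/-- E2: the gates which will probably be true in the next step -/
theorem pf_E2 (hRES : T_RES) (hHA2 : T_HA2) : T_E2 := by
  classical
  intro R s Ω X _ _ K u α β hα hβ hDα hDβ
  -- resampling
  have key : ∀ t : Fin R, ∑ y : Fin R → Ω, (if ¬ K.a y t u ∧ K.B y t u then
      ∑ x : X, ∑ r ∈ range (t.1 + 1), α y r * β y t x / ((t.1 : ℝ) - r + 1) else 0) ≤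
      2 * ∑ y : Fin R → Ω, (if ¬ K.a y t u ∧ K.a y (t + 1) u then
      ∑ x : X, ∑ r ∈ range (t.1 + 1), α y r * β y t x / ((t.1 : ℝ) - r + 1) else 0) := by
    intro t
    have hagree : ∀ (y : Fin R → Ω) (ω : Ω) (r : ℕ), r ≤ t.1 →
        ∀ i : Fin R, i.1 < r → Function.update y t ω i = y i := by
      intro y ω r hr i hi
      rw [Function.update_of_ne]
      rintro rfl
      omega
    have ha : ∀ (y : Fin R → Ω) (ω : Ω), K.a (Function.update y t ω) t.1 = K.a y t.1 :=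
      fun y ω => (K.dep _ _ t.1 (hagree y ω t.1 le_rfl)).1
    have hres := hRES R Ω t (fun y => ¬ K.a y t u ∧ K.B y t u)
      (fun y => ¬ K.a y t u ∧ K.a y (t + 1) u)
      (fun y => ∑ x : X, ∑ r ∈ range (t.1 + 1), α y r * β y t x / ((t.1 : ℝ) - r + 1)) ?_ ?_ ?_ ?_
    · convert hres
    · intro y
      refine sum_nonneg fun x _ => sum_nonneg fun r hr => ?_
      have h1 : r ≤ t.1 := by
        have := mem_range.1 hr
        omega
      have h2 : (r : ℝ) ≤ t.1 := by exact_mod_cast h1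
      exact div_nonneg (mul_nonneg (hα _ _) (hβ _ _ _)) (by linarith)
    · intro y ω
      refine sum_congr rfl fun x _ => sum_congr rfl fun r hr => ?_
      have h1 : r ≤ t.1 := by
        have := mem_range.1 hr
        omega
      rw [hDα _ _ r (hagree y ω r h1), hDβ _ _ t.1 (hagree y ω t.1 le_rfl)]
    · intro y ω
      have hB : K.B (Function.update y t ω) t.1 u ↔ K.B y t.1 u := by
        unfold Ch.B
        refine forall_congr' fun h => ?_
        have : (⟨t.1, h⟩ : Fin R) = t := Fin.ext rfl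
        rw [this]
        simp only [Function.update_idem]
      change (¬ K.a (Function.update y t ω) t.1 u ∧ _) ↔ _
      rw [ha, hB]
    · intro y hy
      obtain ⟨hy1, hy2⟩ := hy
      have h1 := hy2 t.2
      rw [not_le] at h1
      have h2 : Nat.card {ω : Ω // ¬ K.a (Function.update y t ω) (t + 1) u} +
          Nat.card {ω : Ω // K.a (Function.update y t ω) (t + 1) u} = Fintype.card Ω := by
        rw [Nat.card_eq_fintype_card, Nat.card_eq_fintype_card,
          Fintype.card_subtype_compl (fun ω => K.a (Function.update y t ω) (t + 1) u)]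
        exact Nat.sub_add_cancel (Fintype.card_subtype_le _)
      have h3 : Nat.card {ω : Ω // ¬ K.a (Function.update y t ω) t.1 u ∧
          K.a (Function.update y t ω) (t + 1) u} =
          Nat.card {ω : Ω // K.a (Function.update y t ω) (t + 1) u} := by
        refine Nat.card_congr (Equiv.subtypeEquivRight fun ω => ?_)
        rw [ha]
        exact and_iff_right hy1
      have h4 : (⟨t.1, t.2⟩ : Fin R) = t := Fin.ext rfl
      rw [h4] at h1
      change Fintype.card Ω ≤ 2 * Nat.card {ω : Ω // ¬ K.a (Function.update y t ω) t.1 u ∧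
          K.a (Function.update y t ω) (t + 1) u}
      rw [h3]
      omega
  -- exchange
  have e1 : ∑ y : Fin R → Ω, ∑ x : X, ∑ t ∈ range R, ∑ r ∈ range (t + 1),
      (if ¬ K.a y t u ∧ K.B y t u then α y r * β y t x / ((t : ℝ) - r + 1) else 0) =
      ∑ t : Fin R, ∑ y : Fin R → Ω, (if ¬ K.a y t u ∧ K.B y t u then
        ∑ x : X, ∑ r ∈ range (t.1 + 1), α y r * β y t x / ((t.1 : ℝ) - r + 1) else 0) := by
    rw [sum_comm (s := (univ : Finset (Fin R)))]
    refine sum_congr rfl fun y _ => ?_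
    rw [sum_comm, ← Fin.sum_univ_eq_sum_range (fun t => ∑ x : X, ∑ r ∈ range (t + 1),
      (if ¬ K.a y t u ∧ K.B y t u then α y r * β y t x / ((t : ℝ) - r + 1) else 0)) R]
    refine sum_congr rfl fun t _ => ?_
    by_cases h : ¬ K.a y t u ∧ K.B y t u
    · simp only [if_pos h]
    · simp only [if_neg h, sum_const_zero]
  have e2 : ∑ t : Fin R, ∑ y : Fin R → Ω, (if ¬ K.a y t u ∧ K.a y (t + 1) u then
        ∑ x : X, ∑ r ∈ range (t.1 + 1), α y r * β y t x / ((t.1 : ℝ) - r + 1) else 0) =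
      ∑ y : Fin R → Ω, ∑ x : X, ∑ t ∈ range R, (if ¬ K.a y t u ∧ K.a y (t + 1) u then
        ∑ r ∈ range (t + 1), α y r * β y t x / ((t : ℝ) - r + 1) else 0) := by
    rw [sum_comm (s := (univ : Finset (Fin R)))]
    refine sum_congr rfl fun y _ => ?_
    rw [sum_comm (s := (univ : Finset X)),
      ← Fin.sum_univ_eq_sum_range (fun t => ∑ x : X, (if ¬ K.a y t u ∧ K.a y (t + 1) u then
        ∑ r ∈ range (t + 1), α y r * β y t x / ((t : ℝ) - r + 1) else 0)) R]
    refine sum_congr rfl fun t _ => ?_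
    by_cases h : ¬ K.a y t u ∧ K.a y (t + 1) u
    · simp only [if_pos h]
    · simp only [if_neg h, sum_const_zero]
  have e3 : ∀ (y : Fin R → Ω) (x : X), 2 * ∑ t ∈ range R, (if ¬ K.a y t u ∧ K.a y (t + 1) u then
        ∑ r ∈ range (t + 1), α y r * β y t x / ((t : ℝ) - r + 1) else 0) ≤
      71 / 50 * (∑ t ∈ range R, α y t ^ 2 + ∑ t ∈ range R, β y t x ^ 2) := by
    intro y x
    have hmono : ∀ a b, a ≤ b → b ≤ R → K.a y a u → K.a y b u := by
      intro a b hab
      induction b, hab using Nat.le_induction with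
      | base => exact fun _ h => h
      | succ b hab ih =>
        intro hb h
        exact K.mono y b u (by omega) (ih (by omega) h)
    have h1 := e2_sum (fun t => ¬ K.a y t u ∧ K.a y (t + 1) u)
      (fun t => 2 * ∑ r ∈ range (t + 1), α y r * β y t x / ((t : ℝ) - r + 1)) R
      (71 / 50 * (∑ t ∈ range R, α y t ^ 2 + ∑ t ∈ range R, β y t x ^ 2))
      (mul_nonneg (by norm_num) (add_nonneg (sum_nonneg fun _ _ => sq_nonneg _)
        (sum_nonneg fun _ _ => sq_nonneg _))) ?_ ?_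
    · rw [mul_sum]
      refine le_trans (le_of_eq (sum_congr rfl fun t _ => ?_)) h1
      by_cases h : ¬ K.a y t u ∧ K.a y (t + 1) u
      · rw [if_pos h, if_pos h]
      · rw [if_neg h, if_neg h, mul_zero]
    · intro t _ t' ht' htt h2 h3
      exact h3.1 (hmono (t + 1) t' (by omega) (by omega) h2.2)
    · intro t ht
      exact e2_one hHA2 R t ht (fun r => α y r) (fun t => β y t x)
  calc ∑ y : Fin R → Ω, ∑ x : X, ∑ t ∈ range R, ∑ r ∈ range (t + 1),
      (if ¬ K.a y t u ∧ K.B y t u then α y r * β y t x / ((t : ℝ) - r + 1) else 0)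
      = ∑ t : Fin R, ∑ y : Fin R → Ω, (if ¬ K.a y t u ∧ K.B y t u then
        ∑ x : X, ∑ r ∈ range (t.1 + 1), α y r * β y t x / ((t.1 : ℝ) - r + 1) else 0) := e1
    _ ≤ ∑ t : Fin R, 2 * ∑ y : Fin R → Ω, (if ¬ K.a y t u ∧ K.a y (t + 1) u then
        ∑ x : X, ∑ r ∈ range (t.1 + 1), α y r * β y t x / ((t.1 : ℝ) - r + 1) else 0) :=
        sum_le_sum fun t _ => key t
    _ = ∑ y : Fin R → Ω, ∑ x : X, 2 * ∑ t ∈ range R, (if ¬ K.a y t u ∧ K.a y (t + 1) u then
        ∑ r ∈ range (t + 1), α y r * β y t x / ((t : ℝ) - r + 1) else 0) := by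
        rw [← mul_sum, e2]
        simp only [mul_sum]
    _ ≤ ∑ y : Fin R → Ω, ∑ x : X,
        71 / 50 * (∑ t ∈ range R, α y t ^ 2 + ∑ t ∈ range R, β y t x ^ 2) :=
        sum_le_sum fun y _ => sum_le_sum fun x _ => e3 y x
    _ = 71 / 50 * (Fintype.card X * ∑ y : Fin R → Ω, ∑ t ∈ range R, α y t ^ 2 +
        ∑ y : Fin R → Ω, ∑ x : X, ∑ t ∈ range R, β y t x ^ 2) := by
        simp only [← mul_sum, sum_add_distrib, sum_const, card_univ, nsmul_eq_mul]

end Pool.Agent.H60.QF
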