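import Pool.Agent.H79.QF.Targets

/-!
# Board qfg_modules, row PRG
-/

set_option autoImplicit false

open Finset Matrix Pool.Agent.H1.Mono Pool.Agent.H79.QF

namespace Pool.Agent.H60.QF

open Classical in
/-- the estimate for one basis state -/
lemma prg_one (hEST : T_EST) {R s : ℕ} {Ω X : Type} [Fintype Ω] [Fintype X] (K : Ch R s Ω X)
    (Q : GQ s) (hQ : Q.Par 1) (j : ℕ) (i : Q.basis) :
    ∑ y, ∑ x, ∑ t ∈ range R, ∑ r ∈ range (t + 1),
      (if ∃ u ∈ Q.ask i, ¬ (K.a y r u ↔ K.p y t x u) then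
        ‖Q.state (K.a y r) j i‖ * ‖Q.state (K.p y t x) j i‖ else 0) / ((t : ℝ) - r + 1) ≤
    81 / 20 * (Fintype.card X * ∑ y : Fin R → Ω, ∑ t ∈ range R, ‖Q.state (K.a y t) j i‖ ^ 2 +
      ∑ y : Fin R → Ω, ∑ x : X, ∑ t ∈ range R, ‖Q.state (K.p y t x) j i‖ ^ 2) := by
  rcases Finset.eq_empty_or_nonempty (Q.ask i) with h0 | ⟨u, hu⟩
  · have h1 : ∑ y : Fin R → Ω, ∑ x : X, ∑ t ∈ range R, ∑ r ∈ range (t + 1),
      (if ∃ u ∈ Q.ask i, ¬ (K.a y r u ↔ K.p y t x u) then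
        ‖Q.state (K.a y r) j i‖ * ‖Q.state (K.p y t x) j i‖ else 0) / ((t : ℝ) - r + 1) = 0 := by
      refine sum_eq_zero fun y _ => sum_eq_zero fun x _ => sum_eq_zero fun t _ =>
        sum_eq_zero fun r _ => ?_
      rw [if_neg (by rintro ⟨u, hu, _⟩; rw [h0] at hu; exact absurd hu (Finset.notMem_empty u)),
        zero_div]
    rw [h1]
    positivity
  · have hu2 : ∀ w ∈ Q.ask i, w = u := by
      intro w hw
      have := hQ i
      rw [Finset.card_le_one] at this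
      exact this w hw u hu
    refine le_trans (le_of_eq ?_) (hEST R s Ω X K u (fun y r => ‖Q.state (K.a y r) j i‖)
      (fun y t x => ‖Q.state (K.p y t x) j i‖) (fun _ _ => norm_nonneg _)
      (fun _ _ _ => norm_nonneg _) ?_ ?_)
    · refine sum_congr rfl fun y _ => sum_congr rfl fun x _ => sum_congr rfl fun t _ =>
        sum_congr rfl fun r _ => ?_
      by_cases h : K.a y r u ↔ K.p y t x u
      · rw [if_neg, if_neg (not_not.2 h), zero_div]
        rintro ⟨w, hw, hw2⟩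
        rw [hu2 w hw] at hw2
        exact hw2 h
      · rw [if_pos ⟨u, hu, h⟩, if_pos h]
    · intro y y' t h
      change ‖Q.state (K.a y t) j i‖ = ‖Q.state (K.a y' t) j i‖
      rw [(K.dep y y' t h).1]
    · intro y y' t h
      change (fun x => ‖Q.state (K.p y t x) j i‖) = (fun x => ‖Q.state (K.p y' t x) j i‖)
      rw [(K.dep y y' t h).2]

/-- PRG: the progress of one query -/
theorem pf_PRG (hSTP : T_STP) (hEST : T_EST) (hNRM : T_NRM) : T_PRG := by
  classical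
  intro R s Ω X _ _ K Q hQ j
  have hpos : ∀ t ∈ range R, ∀ r ∈ range (t + 1), (0 : ℝ) < (t : ℝ) - r + 1 := by
    intro t _ r hr
    have h1 : r ≤ t := by
      have := mem_range.1 hr
      omega
    have h2 : (r : ℝ) ≤ t := by exact_mod_cast h1
    linarith
  have e1 : K.Phi Q (j + 1) - K.Phi Q j = ∑ y : Fin R → Ω, ∑ x : X, ∑ t ∈ range R,
      ∑ r ∈ range (t + 1),
        (Q.ip (K.a y r) (K.p y t x) (j + 1) - Q.ip (K.a y r) (K.p y t x) j) /
          ((t : ℝ) - r + 1) := by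
    simp only [Ch.Phi, sub_div, sum_sub_distrib]
  have e2 : |K.Phi Q (j + 1) - K.Phi Q j| ≤ ∑ y : Fin R → Ω, ∑ x : X, ∑ t ∈ range R,
      ∑ r ∈ range (t + 1),
        |Q.ip (K.a y r) (K.p y t x) (j + 1) - Q.ip (K.a y r) (K.p y t x) j| /
          ((t : ℝ) - r + 1) := by
    rw [e1]
    refine (abs_sum_le_sum_abs _ _).trans (sum_le_sum fun y _ => ?_)
    refine (abs_sum_le_sum_abs _ _).trans (sum_le_sum fun x _ => ?_)
    refine (abs_sum_le_sum_abs _ _).trans (sum_le_sum fun t ht => ?_)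
    refine (abs_sum_le_sum_abs _ _).trans (sum_le_sum fun r hr => ?_)
    rw [abs_div, abs_of_pos (hpos t ht r hr)]
  have e3 : ∑ y : Fin R → Ω, ∑ x : X, ∑ t ∈ range R, ∑ r ∈ range (t + 1),
        |Q.ip (K.a y r) (K.p y t x) (j + 1) - Q.ip (K.a y r) (K.p y t x) j| /
          ((t : ℝ) - r + 1) ≤
      2 * ∑ i : Q.basis, ∑ y : Fin R → Ω, ∑ x : X, ∑ t ∈ range R, ∑ r ∈ range (t + 1),
        (if ∃ u ∈ Q.ask i, ¬ (K.a y r u ↔ K.p y t x u) then
          ‖Q.state (K.a y r) j i‖ * ‖Q.state (K.p y t x) j i‖ else 0) / ((t : ℝ) - r + 1) := by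
    conv_rhs => rw [sum_comm, mul_sum]
    refine sum_le_sum fun y _ => ?_
    conv_rhs => rw [sum_comm, mul_sum]
    refine sum_le_sum fun x _ => ?_
    conv_rhs => rw [sum_comm, mul_sum]
    refine sum_le_sum fun t ht => ?_
    conv_rhs => rw [sum_comm, mul_sum]
    refine sum_le_sum fun r hr => ?_
    rw [← sum_div, ← mul_div_assoc]
    refine div_le_div_of_nonneg_right ?_ (hpos t ht r hr).le
    convert hSTP s Q (K.a y r) (K.p y t x) j using 3
  have e4 : ∑ i : Q.basis, ∑ y : Fin R → Ω, ∑ x : X, ∑ t ∈ range R, ∑ r ∈ range (t + 1),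
        (if ∃ u ∈ Q.ask i, ¬ (K.a y r u ↔ K.p y t x u) then
          ‖Q.state (K.a y r) j i‖ * ‖Q.state (K.p y t x) j i‖ else 0) / ((t : ℝ) - r + 1) ≤
      ∑ i : Q.basis, 81 / 20 * (Fintype.card X * ∑ y : Fin R → Ω, ∑ t ∈ range R,
        ‖Q.state (K.a y t) j i‖ ^ 2 +
        ∑ y : Fin R → Ω, ∑ x : X, ∑ t ∈ range R, ‖Q.state (K.p y t x) j i‖ ^ 2) := by
    refine sum_le_sum fun i _ => ?_
    convert prg_one hEST K Q hQ j i
  have e5 : ∑ i : Q.basis, 81 / 20 * (Fintype.card X * ∑ y : Fin R → Ω, ∑ t ∈ range R,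
        ‖Q.state (K.a y t) j i‖ ^ 2 +
        ∑ y : Fin R → Ω, ∑ x : X, ∑ t ∈ range R, ‖Q.state (K.p y t x) j i‖ ^ 2) =
      81 / 10 * (R * Fintype.card (Fin R → Ω) * Fintype.card X) := by
    rw [← mul_sum, sum_add_distrib, ← mul_sum]
    have f1 : ∑ i : Q.basis, ∑ y : Fin R → Ω, ∑ t ∈ range R, ‖Q.state (K.a y t) j i‖ ^ 2 =
        Fintype.card (Fin R → Ω) * R := by
      rw [sum_comm]
      have : ∀ y : Fin R → Ω, ∑ i : Q.basis, ∑ t ∈ range R, ‖Q.state (K.a y t) j i‖ ^ 2 =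
          (R : ℝ) := by
        intro y
        rw [sum_comm]
        rw [sum_congr rfl fun t _ => hNRM s Q (K.a y t) j]
        simp
      rw [sum_congr rfl fun y _ => this y, sum_const, card_univ, nsmul_eq_mul]
    have f2 : ∑ i : Q.basis, ∑ y : Fin R → Ω, ∑ x : X, ∑ t ∈ range R,
        ‖Q.state (K.p y t x) j i‖ ^ 2 = Fintype.card (Fin R → Ω) * (Fintype.card X * R) := by
      rw [sum_comm]
      have : ∀ y : Fin R → Ω, ∑ i : Q.basis, ∑ x : X, ∑ t ∈ range R,
          ‖Q.state (K.p y t x) j i‖ ^ 2 = (Fintype.card X * R : ℝ) := by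
        intro y
        rw [sum_comm]
        have g : ∀ x : X, ∑ i : Q.basis, ∑ t ∈ range R, ‖Q.state (K.p y t x) j i‖ ^ 2 =
            (R : ℝ) := by
          intro x
          rw [sum_comm]
          rw [sum_congr rfl fun t _ => hNRM s Q (K.p y t x) j]
          simp
        rw [sum_congr rfl fun x _ => g x, sum_const, card_univ, nsmul_eq_mul]
      rw [sum_congr rfl fun y _ => this y, sum_const, card_univ, nsmul_eq_mul]
    rw [f1, f2]
    ring
  calc |K.Phi Q (j + 1) - K.Phi Q j| ≤ _ := e2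
    _ ≤ _ := e3
    _ ≤ 2 * (81 / 10 * (R * Fintype.card (Fin R → Ω) * Fintype.card X)) :=
        mul_le_mul_of_nonneg_left (e4.trans (le_of_eq e5)) (by norm_num)
    _ = 81 / 5 * (R * Fintype.card (Fin R → Ω) * Fintype.card X) := by ring

end Pool.Agent.H60.QF
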