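import Pool.Agent.H79.QF.Targets

/-!
# Board qfg_modules, row ZO
-/

set_option autoImplicit false

open Finset Matrix Pool.Agent.H1.Mono Pool.Agent.H79.QF

namespace Pool.Agent.H60.QF

/-- ZO: the hard formulas -/
theorem pf_ZO (hZOT : T_ZOT) : T_ZO := by
  intro n m hn2 M hM D hDx hDB
  have hnR : (2 : ℝ) ≤ n := by exact_mod_cast hn2
  have hmpos : 0 < M.card := card_pos.2 hM
  have hmR : (0 : ℝ) < M.card := by exact_mod_cast hmpos
  set x := Real.logb 2 n with hx
  have hx1 : 1 ≤ x := by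
    rw [hx, Real.le_logb_iff_rpow_le (by norm_num) (by linarith), Real.rpow_one]
    exact hnR
  have hD : 0 < D := by linarith
  set B := min (Real.logb 2 (2 * M.card * n)) (Real.sqrt n) with hB
  obtain ⟨L, hL⟩ : ∃ L, L = min (Nat.log 2 M.card) (Nat.sqrt n) := ⟨_, rfl⟩
  have hLm : L ≤ Nat.log 2 M.card := by
    rw [hL]
    exact min_le_left _ _
  have hL1 : 2 ^ L ≤ M.card :=
    le_trans (Nat.pow_le_pow_right (by norm_num) hLm) (Nat.pow_log_le_self 2 hmpos.ne')
  have hL2 : L ^ 2 ≤ n := by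
    have h1 : L ≤ Nat.sqrt n := by
      rw [hL]
      exact min_le_right _ _
    exact (Nat.pow_le_pow_left h1 2).trans (Nat.sqrt_le' n)
  have h1 : Real.logb 2 M.card < Nat.log 2 M.card + 1 := by
    rw [Real.logb_lt_iff_lt_rpow (by norm_num) hmR]
    have h2 : M.card < 2 ^ (Nat.log 2 M.card + 1) := Nat.lt_pow_succ_log_self (by norm_num) _
    have h3 : (M.card : ℝ) < 2 ^ (Nat.log 2 M.card + 1) := by exact_mod_cast h2
    rw [← Real.rpow_natCast] at h3
    push_cast at h3
    exact h3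
  have h2 : Real.sqrt n < Nat.sqrt n + 1 := by
    rw [Real.sqrt_lt' (by positivity)]
    have h3 : n < (Nat.sqrt n + 1) ^ 2 := Nat.lt_succ_sqrt' n
    exact_mod_cast h3
  have hlog2 : Real.logb 2 (2 * M.card * n) = 1 + Real.logb 2 M.card + x := by
    rw [Real.logb_mul (by positivity) (by positivity), Real.logb_mul (by norm_num) hmR.ne',
      Real.logb_self_eq_one (by norm_num)]
  have hmin : B < L + 2 + x := by
    rw [hL, Nat.cast_min, hB]
    rcases le_total (Nat.log 2 M.card : ℝ) (Nat.sqrt n : ℝ) with h3 | h3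
    · rw [min_eq_left h3]
      refine lt_of_le_of_lt (min_le_left _ _) ?_
      rw [hlog2]
      linarith
    · rw [min_eq_right h3]
      refine lt_of_le_of_lt (min_le_right _ _) ?_
      linarith
  have hB0 : 0 ≤ B - D := by linarith
  obtain ⟨r, hr⟩ : ∃ r, r = ⌊B - D⌋₊ := ⟨_, rfl⟩
  have hr1 : (r : ℝ) ≤ B - D := by
    rw [hr]
    exact Nat.floor_le hB0
  have hr2 : B - D < r + 1 := by
    rw [hr]
    exact Nat.lt_floor_add_one _
  have hgap : D < (L : ℝ) - r + 2 + x := by linarith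
  have hrL : r < L := by
    have : (r : ℝ) < L := by linarith
    exact_mod_cast this
  have hDn : D ^ 2 ≤ n := by
    have h3 : D ≤ Real.sqrt n := hDB.trans (min_le_right _ _)
    calc D ^ 2 ≤ Real.sqrt n ^ 2 := pow_le_pow_left₀ hD.le h3 2
      _ = n := Real.sq_sqrt (by linarith)
  obtain ⟨Ω, X, iΩ, iX, nΩ, nX, A, P, c1, c2, c3, c4, c5, c6, c7, c8, c9⟩ :=
    hZOT (M := M) hn2 hL2 hrL hL1 hDx hDn hgap
  refine ⟨2 ^ (r + 2), ?_, Ω, X, iΩ, iX, nΩ, nX, A, P, c1, c2, c3, c4, c5, c6, fun y t => ?_,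
    fun y t z => ?_, fun s C hs => ?_⟩
  · have h4 : (2 : ℝ) ^ (B - D) < 2 ^ ((r : ℝ) + 1) :=
      Real.rpow_lt_rpow_of_exponent_lt (by norm_num) hr2
    rw [Real.rpow_add (by norm_num), Real.rpow_natCast, Real.rpow_one] at h4
    push_cast
    rw [pow_add]
    linarith
  · intro j
    rcases c7 y t j with h | h
    · exact Or.inl h
    · exact Or.inr (h.trans hLm)
  · intro j
    rcases c8 y t z j with h | h
    · exact Or.inl h
    · exact Or.inr (h.trans hLm)
  · exact c9 s C (by rwa [mul_comm] at hs)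

end Pool.Agent.H60.QF
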